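import Pool.Agent.MWGX.StmtsB

/-!
# MWGX, row KEG: `A0` or `P0`, together with `Es 1`, imply `Kag`
-/

set_option autoImplicit false

namespace Pool.Agent.MWGX.H35

open Pool.Agent.Helper14_MV Pool.Agent.Helper2_MV Pool.Agent.MWGX
open Pool.Agent.MWK (pre)
open Pool.Agent.MWGN (nn Nm WC WT Tau Ns nl sg)
open Pool.Agent.MWGQ (pw Gn E0 A0 P0 bd kr krl Rs)
open Pool.Agent.MWGR (X It Kaba F1 Dm Ec Es Ea Al0 Rh FE)

theorem es_sub {n : ℕ} {β : FIC} (h : Es n 1 (RR β)) (E U V T R : List ℕ) :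
    RR β (gL n 1 E U V ++ (T ++ (U ++ (V ++ R)))) (gR n 1 E U V ++ (T ++ (U ++ (V ++ R)))) := by
  have h1 := RR.sub (fun i => if i = 0 then E else if i = 1 then U else if i = 2 then V else T) h
  rw [flat_l, flat_r] at h1
  have h2 := RR.append h1 (RR.refl (β := β) R)
  simpa [List.append_assoc] using h2

theorem rtr {β : FIC} {a b c : List ℕ} (h : RR β a b) (h' : RR β b c) : RR β a c :=
  β.trans h h'

/-- ROW KEG -/
theorem keg (h1 : MiaStmt) (h2 : MipStmt) : KegStmt := by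
  intro n β hg hes hap m τ hT E U V A B S L C
  rcases hap with ha | hp
  · obtain ⟨T, R, h⟩ := h1 n β hg ha m τ hT U V A B S L C
    have a1 : RR β (gL n 1 E U V ++ kr n U V A B S L C τ m)
        (gL n 1 E U V ++ (T ++ (U ++ (V ++ R)))) :=
      h (pw n E) (pw (n + 1) E ++ (V ++ pw n E))
    have a2 : RR β (gR n 1 E U V ++ kr n U V A B S L C τ m)
        (gR n 1 E U V ++ (T ++ (U ++ (V ++ R)))) := by
      have := h (pw (n + 1) E ++ (V ++ pw (n + (n - 1) * 1) E)) (pw (n + 1) E)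
      simpa only [gR, List.append_assoc] using this
    exact rtr a1 (rtr (es_sub hes E U V T R) (RR.symm a2))
  · obtain ⟨T, R, h⟩ := h2 n β hg hp m τ hT U V A B S L C
    have a1 : RR β (gL n 1 E U V ++ kr n U V A B S L C τ m)
        (gL n 1 E U V ++ (T ++ (U ++ (V ++ R)))) := by
      have := h (pw n E ++ (U ++ pw (n + 1) E)) (pw n E)
      simpa only [gL, List.append_assoc] using this
    have a2 : RR β (gR n 1 E U V ++ kr n U V A B S L C τ m)
        (gR n 1 E U V ++ (T ++ (U ++ (V ++ R)))) :=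
      h (pw (n + 1) E) (pw (n + (n - 1) * 1) E ++ (U ++ pw (n + 1) E))
    exact rtr a1 (rtr (es_sub hes E U V T R) (RR.symm a2))

end Pool.Agent.MWGX.H35
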