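import Pool.Agent.MWGX.StmtsA

/-!
# MWGX, row SKK: the words of the pentagons are in the classes
-/

set_option autoImplicit false

namespace Pool.Agent.MWGX.H35

open Pool.Agent.Helper14_MV Pool.Agent.Helper2_MV Pool.Agent.MWGX
open Pool.Agent.MWK (pre pre_append pre_cons_self)
open Pool.Agent.MWGN (nn)
open Pool.Agent.MWGR (X)

theorem pre_X {k y : ℕ} (h : y ≠ 0) (B : List ℕ) : pre (X k ++ B) y = X k ++ pre B y := by
  apply pre_append
  intro hy
  unfold X at hy
  exact h (List.eq_of_mem_replicate hy)

theorem pre_ne {c y : ℕ} (h : c ≠ y) (B : List ℕ) : pre (c :: B) y = c :: pre B y := by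
  unfold pre
  rw [List.takeWhile_cons]
  simp [h]

theorem cX0 (k : ℕ) : (X k).count 0 = k := by
  unfold X
  rw [List.count_replicate]
  simp

theorem cX (k c : ℕ) (h : c ≠ 0) : (X k).count c = 0 := by
  unfold X
  rw [List.count_replicate]
  simp [h.symm]

/-- ROW SKK -/
theorem skk : SkkStmt := by
  intro n δ hn hδ u v hu hv
  have p1 : pre u 1 = X n := by
    rw [hu, pre_X (by norm_num), pre_cons_self, List.append_nil]
  have p2 : pre u 2 = X n ++ 1 :: X (n + 1) := by
    rw [hu, pre_X (by norm_num), pre_ne (by norm_num), pre_X (by norm_num), pre_cons_self,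
      List.append_nil]
  have p3 : pre u 3 = X n ++ 1 :: (X (n + 1) ++ 2 :: X n) := by
    rw [hu, pre_X (by norm_num), pre_ne (by norm_num), pre_X (by norm_num),
      pre_ne (by norm_num), pre_X (by norm_num), pre_cons_self, List.append_nil]
  have p4 : pre u 4 = X n ++ 1 :: (X (n + 1) ++ 2 :: (X n ++ [3, 1])) := by
    rw [hu, pre_X (by norm_num), pre_ne (by norm_num), pre_X (by norm_num),
      pre_ne (by norm_num), pre_X (by norm_num), pre_ne (by norm_num), pre_ne (by norm_num),
      pre_cons_self]
  have p5 : pre u 5 = X n ++ 1 :: (X (n + 1) ++ 2 :: (X n ++ [3, 1, 4, 2])) := by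
    rw [hu, pre_X (by norm_num), pre_ne (by norm_num), pre_X (by norm_num),
      pre_ne (by norm_num), pre_X (by norm_num), pre_ne (by norm_num), pre_ne (by norm_num),
      pre_ne (by norm_num), pre_ne (by norm_num), pre_cons_self]
  have q2 : pre v 2 = X (n + 1) := by
    rw [hv, pre_X (by norm_num), pre_cons_self, List.append_nil]
  have c0 : u.count 0 = 3 * n + 1 := by
    rw [hu]
    simp [List.count_append, List.count_cons, cX0]
    omega
  have c1 : u.count 1 = 3 := by
    rw [hu]
    simp [List.count_append, List.count_cons, cX]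
  have c2 : u.count 2 = 2 := by
    rw [hu]
    simp [List.count_append, List.count_cons, cX]
  have c3 : u.count 3 = 1 := by
    rw [hu]
    simp [List.count_append, List.count_cons, cX]
  have c4 : u.count 4 = 1 := by
    rw [hu]
    simp [List.count_append, List.count_cons, cX]
  have c5 : u.count 5 = 1 := by
    rw [hu]
    simp [List.count_append, List.count_cons, cX]
  have n43 : nn u 4 3 = 0 := by
    unfold nn
    rw [p3]
    simp [List.count_append, List.count_cons, cX]
  have n54 : nn u 5 4 = 0 := by
    unfold nn
    rw [p4]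
    simp [List.count_append, List.count_cons, cX]
  have n03 : nn u 0 3 = 3 * n + 1 := by
    unfold nn
    rw [p3]
    simp [List.count_append, List.count_cons, cX0]
    omega
  have n13 : nn u 1 3 = 1 := by
    unfold nn
    rw [p3]
    simp [List.count_append, List.count_cons, cX]
  have n14 : nn u 1 4 = 2 := by
    unfold nn
    rw [p4]
    simp [List.count_append, List.count_cons, cX]
  have n15 : nn u 1 5 = 2 := by
    unfold nn
    rw [p5]
    simp [List.count_append, List.count_cons, cX]
  have n23 : nn u 2 3 = 1 := by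
    unfold nn
    rw [p3]
    simp [List.count_append, List.count_cons, cX]
  have n24 : nn u 2 4 = 1 := by
    unfold nn
    rw [p4]
    simp [List.count_append, List.count_cons, cX]
  have n25 : nn u 2 5 = 2 := by
    unfold nn
    rw [p5]
    simp [List.count_append, List.count_cons, cX]
  have n12 : nn u 1 2 = 1 := by
    unfold nn
    rw [p2]
    simp [List.count_append, List.count_cons, cX]
  have n01 : nn u 0 1 = n := by
    unfold nn
    rw [p1, cX0]
  have n02 : nn u 0 2 = n + (n + 1) := by
    unfold nn
    rw [p2]
    simp [List.count_append, List.count_cons, cX0]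
  refine ⟨⟨c3, c4, c5, n43, n54, by omega, by omega, by omega, n13, by omega, by omega,
    by omega, by omega, n23, n24, by omega⟩, ?_, n12, ?_, ?_⟩
  · unfold Ab
    rw [n14, n15]
  · unfold Lb
    rw [n01, n02]
    have h1 : n ≡ 0 [MOD δ] := (Nat.modEq_zero_iff_dvd).2 hδ
    calc n + (n + 1) ≡ 0 + (n + 1) [MOD δ] := Nat.ModEq.add_right _ h1
      _ = n + 1 := by ring
  · unfold nn
    rw [q2, cX _ _ (by norm_num)]

end Pool.Agent.MWGX.H35
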